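import Mathlib

/-! Moments of weak limits of laws with bounded fourth moments (helper694). -/

set_option autoImplicit false
open MeasureTheory Filter Topology
open scoped ENNReal BoundedContinuousFunction

namespace Run7.h694.FM

noncomputable section

/-- truncation at level `M` -/
def cl (M x : ℝ) : ℝ := max (-M) (min x M)

lemma cl_cont (M : ℝ) : Continuous (cl M) := by unfold cl; fun_prop

lemma cl_abs {M : ℝ} (hM : 0 ≤ M) (x : ℝ) : |cl M x| ≤ M := by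
  unfold cl
  rw [abs_le]
  exact ⟨le_max_left _ _, max_le (by linarith) (min_le_right _ _)⟩

lemma cl_eq {M x : ℝ} (h : |x| ≤ M) : cl M x = x := by
  unfold cl
  rw [abs_le] at h
  rw [min_eq_left h.2, max_eq_right h.1]

lemma cl_le {M : ℝ} (hM : 0 ≤ M) (x : ℝ) : |cl M x| ≤ |x| := by
  rcases le_total |x| M with h | h
  · rw [cl_eq h]
  · exact (cl_abs hM x).trans h

lemma cl_pow {M : ℝ} (hM : 0 ≤ M) (k : ℕ) (x : ℝ) : |cl M x ^ k| ≤ M ^ k := by
  rw [abs_pow]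
  exact pow_le_pow_left₀ (abs_nonneg _) (cl_abs hM x) k

lemma cl_err {M : ℝ} (hM : 1 ≤ M) {k : ℕ} (hk : k ≤ 3) (x : ℝ) :
    |x ^ k - cl M x ^ k| ≤ 2 * x ^ 4 / M := by
  have M0 : 0 < M := by linarith
  rcases le_total |x| M with h | h
  · rw [cl_eq h, sub_self, abs_zero]; positivity
  · have h1 : |x ^ k - cl M x ^ k| ≤ 2 * |x| ^ k := by
      refine (abs_sub _ _).trans ?_
      have := pow_le_pow_left₀ (abs_nonneg _) (cl_le M0.le x) k
      rw [abs_pow, abs_pow]; linarith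
    have h2 : |x| ^ k * M ≤ x ^ 4 := by
      have x1 : 1 ≤ |x| := hM.trans h
      calc |x| ^ k * M ≤ |x| ^ k * |x| := by gcongr
        _ = |x| ^ (k + 1) := (pow_succ _ _).symm
        _ ≤ |x| ^ 4 := pow_le_pow_right₀ x1 (by omega)
        _ = x ^ 4 := by rw [← abs_pow, abs_of_nonneg (by positivity)]
    rw [le_div_iff₀ M0]
    nlinarith

/-- the truncated power as a bounded continuous function of the first coordinate -/
def tr (M : ℝ) (hM : 0 ≤ M) (k : ℕ) : (ℝ × ℝ) →ᵇ ℝ :=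
  BoundedContinuousFunction.ofNormedAddCommGroup (fun p : ℝ × ℝ => cl M p.1 ^ k)
    (((cl_cont M).comp continuous_fst).pow k) (M ^ k) (fun p => cl_pow hM k p.1)

lemma tr_apply (M : ℝ) (hM : 0 ≤ M) (k : ℕ) (p : ℝ × ℝ) : tr M hM k p = cl M p.1 ^ k := rfl

variable {κ : ℕ → Measure (ℝ × ℝ)} {ν : Measure (ℝ × ℝ)}

lemma pow_int (τ : Measure (ℝ × ℝ)) [IsFiniteMeasure τ]
    (i4 : Integrable (fun p : ℝ × ℝ => p.1 ^ 4) τ) {k : ℕ} (hk : k ≤ 4) :
    Integrable (fun p : ℝ × ℝ => p.1 ^ k) τ := by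
  refine Integrable.mono' ((integrable_const (1 : ℝ)).add i4)
    (by fun_prop) (ae_of_all _ fun p => ?_)
  show ‖p.1 ^ k‖ ≤ 1 + p.1 ^ 4
  rw [Real.norm_eq_abs, abs_pow]
  have e4 : p.1 ^ 4 = |p.1| ^ 4 := by rw [← abs_pow, abs_of_nonneg (by positivity)]
  rw [e4]
  rcases le_total |p.1| 1 with h | h
  · have := pow_le_one₀ (n := k) (abs_nonneg p.1) h
    have : 0 ≤ |p.1| ^ 4 := by positivity
    linarith
  · have := pow_le_pow_right₀ h hk
    linarith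

lemma tr_err (τ : Measure (ℝ × ℝ)) [IsFiniteMeasure τ]
    (i4 : Integrable (fun p : ℝ × ℝ => p.1 ^ 4) τ) {k : ℕ} (hk : k ≤ 3) {M : ℝ} (hM : 1 ≤ M)
    {C : ℝ} (hC : ∫ p, p.1 ^ 4 ∂τ ≤ C) :
    |∫ p, p.1 ^ k ∂τ - ∫ p, tr M (by linarith) k p ∂τ| ≤ 2 * C / M := by
  have M0 : 0 < M := by linarith
  rw [← integral_sub (pow_int τ i4 (by omega)) ((tr M (by linarith) k).integrable τ)]
  refine (abs_integral_le_integral_abs).trans ?_
  have i1 : Integrable (fun p : ℝ × ℝ => 2 * p.1 ^ 4 / M) τ := (i4.const_mul 2).div_const M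
  refine (integral_mono ?_ i1 fun p => ?_).trans ?_
  · exact ((pow_int τ i4 (by omega)).sub ((tr M (by linarith) k).integrable τ)).abs
  · exact cl_err hM hk p.1
  · rw [integral_div, integral_const_mul]
    gcongr

/-- moments of weak limits -/
theorem mom_lim [∀ n, IsFiniteMeasure (κ n)] [IsFiniteMeasure ν]
    (hw : ∀ F : (ℝ × ℝ) →ᵇ ℝ, Tendsto (fun n => ∫ p, F p ∂(κ n)) atTop (𝓝 (∫ p, F p ∂ν)))
    {C : ℝ} (i4 : ∀ n, Integrable (fun p : ℝ × ℝ => p.1 ^ 4) (κ n))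
    (hC : ∀ n, ∫ p, p.1 ^ 4 ∂(κ n) ≤ C) :
    Integrable (fun p : ℝ × ℝ => p.1 ^ 4) ν ∧
      (∀ c : ℝ, (∀ δ : ℝ, 0 < δ → ∀ᶠ n in atTop, ∫ p, p.1 ^ 4 ∂(κ n) ≤ c + δ) →
        ∫ p, p.1 ^ 4 ∂ν ≤ c) ∧
      ∀ k : ℕ, k ≤ 3 → Tendsto (fun n => ∫ p, p.1 ^ k ∂(κ n)) atTop (𝓝 (∫ p, p.1 ^ k ∂ν)) := by
  have key : ∀ c : ℝ, (∀ δ : ℝ, 0 < δ → ∀ᶠ n in atTop, ∫ p, p.1 ^ 4 ∂(κ n) ≤ c + δ) →
      ∫⁻ p, ENNReal.ofReal (p.1 ^ 4) ∂ν ≤ ENNReal.ofReal c := by
    intro c hc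
    have b : ∀ N : ℕ, ∫ p, tr (N : ℝ) N.cast_nonneg 4 p ∂ν ≤ c := by
      intro N
      refine le_of_forall_pos_le_add fun δ hδ => ?_
      refine le_of_tendsto (hw (tr (N : ℝ) N.cast_nonneg 4)) ((hc δ hδ).mono fun n hn => ?_)
      refine le_trans (integral_mono ((tr (N : ℝ) N.cast_nonneg 4).integrable _) (i4 n)
        fun p => ?_) hn
      show cl N p.1 ^ 4 ≤ p.1 ^ 4
      have h1 := pow_le_pow_left₀ (abs_nonneg _) (cl_le (M := N) N.cast_nonneg p.1) 4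
      rwa [← abs_pow, ← abs_pow, abs_of_nonneg (by positivity), abs_of_nonneg (by positivity)] at h1
    have e1 : ∀ p : ℝ × ℝ, ENNReal.ofReal (p.1 ^ 4) =
        liminf (fun N : ℕ => ENNReal.ofReal (cl N p.1 ^ 4)) atTop := fun p => by
      have : Tendsto (fun N : ℕ => ENNReal.ofReal (cl N p.1 ^ 4)) atTop
          (𝓝 (ENNReal.ofReal (p.1 ^ 4))) := by
        refine tendsto_const_nhds.congr' ?_
        obtain ⟨N, hN⟩ := exists_nat_ge |p.1|
        filter_upwards [eventually_ge_atTop N] with M hM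
        rw [cl_eq (hN.trans (by exact_mod_cast hM))]
      exact this.liminf_eq.symm
    rw [lintegral_congr e1]
    refine (lintegral_liminf_le fun N => ?_).trans ?_
    · exact (((cl_cont N).comp continuous_fst).pow 4).measurable.ennreal_ofReal
    · have e3 : ∀ N : ℕ, ∫⁻ p, ENNReal.ofReal (cl N p.1 ^ 4) ∂ν ≤ ENNReal.ofReal c := by
        intro N
        have h2 := ofReal_integral_eq_lintegral_ofReal
          ((tr (N : ℝ) N.cast_nonneg 4).integrable ν)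
          (ae_of_all _ fun p => (by
            show 0 ≤ cl N p.1 ^ 4
            positivity : (0 : ℝ) ≤ tr (N : ℝ) N.cast_nonneg 4 p))
        have h3 : ∫⁻ p, ENNReal.ofReal (cl N p.1 ^ 4) ∂ν =
            ∫⁻ p, ENNReal.ofReal (tr (N : ℝ) N.cast_nonneg 4 p) ∂ν := rfl
        rw [h3, ← h2]
        exact ENNReal.ofReal_le_ofReal (b N)
      exact (liminf_le_liminf (Eventually.of_forall e3)).trans (liminf_const _).le
  have i4ν : Integrable (fun p : ℝ × ℝ => p.1 ^ 4) ν := by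
    have h1 := key C fun δ hδ => Eventually.of_forall fun n => by linarith [hC n]
    refine ⟨by fun_prop, ?_⟩
    rw [hasFiniteIntegral_iff_ofReal (ae_of_all _ fun p => by positivity)]
    exact lt_of_le_of_lt h1 ENNReal.ofReal_lt_top
  have upper : ∀ c : ℝ, (∀ δ : ℝ, 0 < δ → ∀ᶠ n in atTop, ∫ p, p.1 ^ 4 ∂(κ n) ≤ c + δ) →
      ∫ p, p.1 ^ 4 ∂ν ≤ c := by
    intro c hc
    have h1 := key c hc
    have c0 : 0 ≤ c := by
      refine le_of_forall_pos_le_add fun δ hδ => ?_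
      obtain ⟨n, hn⟩ := (hc δ hδ).exists
      exact (integral_nonneg fun p => by positivity).trans hn
    rw [← ofReal_integral_eq_lintegral_ofReal i4ν (ae_of_all _ fun p => by positivity)] at h1
    exact (ENNReal.ofReal_le_ofReal_iff c0).1 h1
  refine ⟨i4ν, upper, fun k hk => ?_⟩
  have hCν : ∫ p, p.1 ^ 4 ∂ν ≤ C :=
    upper C fun δ hδ => Eventually.of_forall fun n => by linarith [hC n]
  have C0 : 0 ≤ C := (integral_nonneg fun p => by positivity).trans hCν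
  rw [Metric.tendsto_atTop']
  intro ε hε
  obtain ⟨M, hM1, hM⟩ : ∃ M : ℝ, 1 ≤ M ∧ 2 * C / M < ε / 3 := by
    refine ⟨max 1 (6 * C / ε + 1), le_max_left _ _, ?_⟩
    have h1 : 6 * C / ε + 1 ≤ max 1 (6 * C / ε + 1) := le_max_right _ _
    have h0 : 0 < max 1 (6 * C / ε + 1) := lt_of_lt_of_le one_pos (le_max_left _ _)
    rw [div_lt_iff₀ h0]
    have h2 : ε / 3 * (6 * C / ε + 1) ≤ ε / 3 * max 1 (6 * C / ε + 1) := by gcongr
    have h3 : ε / 3 * (6 * C / ε + 1) = 2 * C + ε / 3 := by field_simp; ring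
    linarith
  have h1 := Metric.tendsto_atTop'.1 (hw (tr M (by linarith) k)) (ε / 3) (by positivity)
  obtain ⟨N, hN⟩ := h1
  refine ⟨N, fun n hn => ?_⟩
  have a1 := tr_err (κ n) (i4 n) hk hM1 (hC n)
  have a2 := tr_err ν i4ν hk hM1 hCν
  have a3 := hN n hn
  rw [Real.dist_eq] at a3 ⊢
  rw [abs_le] at a1 a2
  rw [abs_lt] at a3 ⊢
  constructor <;> linarith [a1.1, a1.2, a2.1, a2.2, a3.1, a3.2]

end

end Run7.h694.FM
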