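import Pool.Agent.Results.MP_a52643_an.FirstJets
import Pool.Agent.Results.MP_4fa179_mp.SmallValues
import Pool.Agent.Results.MP_a52643_an.ThirdMoments
import Pool.Agent.Y139.PD.D
import Pool.Agent.Run7.h694.FM.A

/-! Small values and moments of eigenfunctions on a surface with charts (helper694). -/

set_option autoImplicit false
open MeasureTheory Filter Topology Complex ProbabilityTheory
open scoped ContDiff ENNReal BoundedContinuousFunction

namespace Run7.h694.FM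

noncomputable section

open Pool.Agent.N252.TV Pool.Agent.N252.LL Pool.Agent.W745.RW
open Pool.Agent.Results.MP_4fa179_mp.SmallValues (D sym parallel)

variable {X : Type*} [TopologicalSpace X] [MeasurableSpace X] {vol : Measure X}

/-- the semiclassical measure `ν_z(dα) dvol(z)` in a chart -/
def SC (C : IsoChart X vol) (lam : ℕ → ℝ) (u : ℕ → X → ℝ) (ν : Kernel ℂ ℝ) : Prop :=
  ∀ φ, TF C.c.target φ → ∀ k : ℕ, Tendsto (fun n => ∫ z, ((φ z * C.ρ z : ℝ) : ℂ) *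
      (((u n ∘ C.c.symm) z : ℂ) *
        (D C.ρ (lam n))^[k] (fun w => ((u n ∘ C.c.symm) w : ℂ)) z)) atTop
      (𝓝 (∫ z, ((φ z * C.ρ z : ℝ) : ℂ) * ∫ α, sym α ^ k ∂(ν z)))

variable [BorelSpace X]

omit [BorelSpace X] in
lemma nb {u : ℝ} : u ^ 2 ≤ (1 + u ^ 4) := by nlinarith [sq_nonneg (u ^ 2 - 1), sq_nonneg u]

/-- `L⁴` bounds on the surface give `L⁴` bounds in the charts -/
lemma loc_l4 (C : IsoChart X vol) {u : ℕ → X → ℝ} {B : ℝ}
    (hu : ∀ n, ContDiffOn ℝ ∞ (u n ∘ C.c.symm) C.c.target)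
    (hB : ∀ n, Integrable (fun x => u n x ^ 4) vol ∧ ∫ x, u n x ^ 4 ∂vol ≤ B)
    {K : Set ℂ} (hK : IsCompact K) (hKt : K ⊆ C.c.target) :
    ∃ R : ℝ, ∀ n, ∫ z in K, (u n ∘ C.c.symm) z ^ 4 ≤ R := by
  obtain ⟨r, r0, hr⟩ := exists_low hK (C.smooth.continuousOn.mono hKt) fun z hz => C.pos z (hKt hz)
  refine ⟨r⁻¹ * B, fun n => ?_⟩
  have i0 : Integrable (fun x => u n x ^ 4) vol := (hB n).1
  have i1 := C.itg i0.integrableOn
  have e1 := C.int (i0.integrableOn (s := C.c.source)).aestronglyMeasurable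
  have i2 : IntegrableOn (fun z => C.ρ z * u n (C.c.symm z) ^ 4) C.c.target := by
    have h := (integrable_withDensity_iff_integrable_smul₀' C.aer
      (ae_of_all _ fun z => ENNReal.ofReal_lt_top)).1 i1
    refine (integrableOn_congr_fun (fun z hz => ?_) C.c.open_target.measurableSet).1 h
    show (ENNReal.ofReal (C.ρ z)).toReal • u n (C.c.symm z) ^ 4 = _
    rw [ENNReal.toReal_ofReal (C.pos z hz).le, smul_eq_mul]
  have cK : ContinuousOn (fun z => u n (C.c.symm z) ^ 4) K := ((hu n).continuousOn.mono hKt).pow 4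
  calc ∫ z in K, (u n ∘ C.c.symm) z ^ 4 ≤ ∫ z in K, r⁻¹ * (C.ρ z * u n (C.c.symm z) ^ 4) := by
        refine setIntegral_mono_on (cK.integrableOn_compact hK)
          ((i2.mono_set hKt).const_mul _) hK.measurableSet fun z hz => ?_
        have h1 := hr z hz
        have h2 : 0 ≤ u n (C.c.symm z) ^ 4 := by positivity
        show u n (C.c.symm z) ^ 4 ≤ _
        rw [inv_mul_eq_div, le_div_iff₀ r0, mul_comm]
        exact mul_le_mul_of_nonneg_right h1 h2
    _ = r⁻¹ * ∫ z in K, C.ρ z * u n (C.c.symm z) ^ 4 := integral_const_mul _ _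
    _ ≤ r⁻¹ * ∫ z in C.c.target, C.ρ z * u n (C.c.symm z) ^ 4 := by
        refine mul_le_mul_of_nonneg_left ?_ (by positivity)
        refine setIntegral_mono_set i2 ?_ hKt.eventuallyLE
        refine (ae_restrict_iff' C.c.open_target.measurableSet).2 (ae_of_all _ fun z hz => ?_)
        exact mul_nonneg (C.pos z hz).le (by positivity)
    _ = r⁻¹ * ∫ x in C.c.source, u n x ^ 4 ∂vol := by rw [e1, C.intm]
    _ ≤ r⁻¹ * B := by
        refine mul_le_mul_of_nonneg_left (le_trans ?_ (hB n).2) (by positivity)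
        exact setIntegral_le_integral i0 (ae_of_all _ fun x => by positivity)

/-- the standing hypotheses -/
structure Hy (A : ℕ → IsoChart X vol) (lam : ℕ → ℝ) (u : ℕ → X → ℝ) (ν : ℕ → Kernel ℂ ℝ)
    (B : ℝ) : Prop where
  pos : ∀ n, 0 < lam n
  ll : Tendsto lam atTop atTop
  ei : ∀ n, IsEigen A (lam n) (u n)
  mar : ∀ i, IsMarkovKernel (ν i)
  sc : ∀ i, SC (A i) lam u (ν i)
  par : ∀ i, ∀ᵐ z ∂(volume.restrict (A i).c.target), parallel (ν i z) = 0
  l4 : ∀ n, Integrable (fun x => u n x ^ 4) vol ∧ ∫ x, u n x ^ 4 ∂vol ≤ B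

variable {A : ℕ → IsoChart X vol} {lam : ℕ → ℝ} {u : ℕ → X → ℝ} {ν : ℕ → Kernel ℂ ℝ} {B : ℝ}

omit [BorelSpace X] in
lemma Hy.sc1 (H : Hy A lam u ν B) (i : ℕ) : ∀ φ, TF (A i).c.target φ → ∀ k : ℕ,
    Tendsto (fun n => ∫ z, ((φ z * (A i).ρ z : ℝ) : ℂ) *
      (((u n ∘ (A i).c.symm) z : ℂ) *
        (D (A i).ρ (lam n))^[k] (fun w => ((u n ∘ (A i).c.symm) w : ℂ)) z)) atTop
      (𝓝 (∫ z, ((φ z * (A i).ρ z : ℝ) : ℂ) *
        ((((fun _ => (1 : ℝ)) : ℂ → ℝ) z : ℂ) * ∫ α, sym α ^ k ∂(ν i z)))) := by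
  intro φ hφ k
  have := H.sc i φ hφ k
  simpa only [ofReal_one, one_mul] using this

/-- the chart inequality -/
lemma Hy.small (H : Hy A lam u ν B) (i : ℕ) {φ : ℂ → ℝ} (hφ : TF (A i).c.target φ)
    (hφ0 : ∀ z, 0 ≤ φ z) {ε : ℝ} (hε : 0 < ε) :
    ∃ s : ℝ, 0 < s ∧ ∀ᶠ n in atTop, (∫ z, φ z * (A i).ρ z) ^ 2 ≤
      (∫ z in {z | z ∈ (A i).c.target ∧ s < |(u n ∘ (A i).c.symm) z|}, φ z * (A i).ρ z) *
        ((∫ z, φ z * (A i).ρ z * (u n ∘ (A i).c.symm) z ^ 4) - 2 * ∫ z, φ z * (A i).ρ z) + ε := by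
  have := H.mar i
  obtain ⟨K, hK, h1, h2⟩ := exists_compact_between hφ.2.1 (A i).c.open_target hφ.2.2
  obtain ⟨R, hR⟩ := loc_l4 (A i) (fun n => (H.ei n).smooth i) H.l4 hK h2
  have R0 : 0 ≤ R := (setIntegral_nonneg hK.measurableSet fun z _ => by positivity).trans (hR 0)
  have key := Pool.Agent.Results.MP_4fa179_mp.SmallValues.result (A i).c.target
    (A i).c.open_target (A i).ρ (A i).smooth (A i).pos lam H.pos H.ll
    (fun n => u n ∘ (A i).c.symm) (fun n => (H.ei n).smooth i) (fun n => (H.ei n).eq i)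
    (fun _ => 1) (fun K hK _ => by
      have : IsFiniteMeasure (volume.restrict K) := ⟨by
        rw [Measure.restrict_apply_univ]; exact hK.measure_lt_top⟩
      exact memLp_const 1) (ν i) (H.sc1 i) (H.par i)
    K hK h2 φ ⟨hφ.1, hφ.2.1, h1⟩ hφ0 (ε / (1 + R)) (by positivity)
  obtain ⟨s, s0, hs⟩ := key
  refine ⟨s, s0, hs.mono fun n hn => ?_⟩
  simp only [mul_one, one_pow] at hn
  refine hn.trans ?_
  have h3 := hR n
  have h4 : ε / (1 + R) * (1 + ∫ z in K, (u n ∘ (A i).c.symm) z ^ 4) ≤ ε := by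
    calc ε / (1 + R) * (1 + ∫ z in K, (u n ∘ (A i).c.symm) z ^ 4) ≤ ε / (1 + R) * (1 + R) := by
          gcongr
      _ = ε := by field_simp
  linarith

end

end Run7.h694.FM
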