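import Pool.Agent.Run7.h694.FM.B

/-! Small values: the sum over the charts (helper694). -/

set_option autoImplicit false
open MeasureTheory Filter Topology Complex ProbabilityTheory
open scoped ContDiff ENNReal BoundedContinuousFunction

namespace Run7.h694.FM

noncomputable section

open Pool.Agent.N252.TV Pool.Agent.N252.LL Pool.Agent.W745.RW
open Pool.Agent.Results.MP_4fa179_mp.SmallValues (D sym parallel)

variable {X : Type*} [TopologicalSpace X] [MeasurableSpace X] {vol : Measure X}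

/-- area, mass above `s` and fourth moment in a chart -/
def cV (C : IsoChart X vol) (φ : ℂ → ℝ) : ℝ := ∫ z, φ z * C.ρ z
def cA (C : IsoChart X vol) (φ : ℂ → ℝ) (f : X → ℝ) (s : ℝ) : ℝ :=
  ∫ z in {z | z ∈ C.c.target ∧ s < |(f ∘ C.c.symm) z|}, φ z * C.ρ z
def cF (C : IsoChart X vol) (φ : ℂ → ℝ) (f : X → ℝ) : ℝ :=
  ∫ z, φ z * C.ρ z * (f ∘ C.c.symm) z ^ 4

lemma ρnn (C : IsoChart X vol) {φ : ℂ → ℝ} (hφ : TF C.c.target φ) (h0 : ∀ z, 0 ≤ φ z) (z : ℂ) :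
    0 ≤ φ z * C.ρ z := by
  by_cases hz : z ∈ C.c.target
  · exact mul_nonneg (h0 z) (C.pos z hz).le
  · rw [image_eq_zero_of_notMem_tsupport fun h => hz (hφ.2.2 h), zero_mul]

lemma ρint (C : IsoChart X vol) {φ : ℂ → ℝ} (hφ : TF C.c.target φ) :
    Integrable (fun z => φ z * C.ρ z) :=
  (C.tfm hφ).1.continuous.integrable_of_hasCompactSupport (C.tfm hφ).2.1

lemma cA_nn (C : IsoChart X vol) {φ : ℂ → ℝ} (hφ : TF C.c.target φ) (h0 : ∀ z, 0 ≤ φ z)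
    (f : X → ℝ) (s : ℝ) : 0 ≤ cA C φ f s := integral_nonneg fun z => ρnn C hφ h0 z

lemma cA_anti (C : IsoChart X vol) {φ : ℂ → ℝ} (hφ : TF C.c.target φ) (h0 : ∀ z, 0 ≤ φ z)
    (f : X → ℝ) {s t : ℝ} (h : s ≤ t) : cA C φ f t ≤ cA C φ f s := by
  refine setIntegral_mono_set (ρint C hφ).integrableOn (ae_of_all _ fun z => ρnn C hφ h0 z) ?_
  exact Eventually.of_forall fun z hz => ⟨hz.1, lt_of_le_of_lt h hz.2⟩

variable [BorelSpace X]
variable {A : ℕ → IsoChart X vol} {lam : ℕ → ℝ} {u : ℕ → X → ℝ} {ν : ℕ → Kernel ℂ ℝ} {B : ℝ}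

/-- the chart inequality, with the excess nonnegative -/
lemma Hy.chart (H : Hy A lam u ν B) (i : ℕ) {φ : ℂ → ℝ} (hφ : TF (A i).c.target φ)
    (hφ0 : ∀ z, 0 ≤ φ z) {ε : ℝ} (hε : 0 < ε) :
    ∃ s : ℝ, 0 < s ∧ ∀ᶠ n in atTop, 0 ≤ cF (A i) φ (u n) - 2 * cV (A i) φ ∧
      ∀ t : ℝ, t ≤ s → cV (A i) φ ^ 2 ≤
        cA (A i) φ (u n) t * (cF (A i) φ (u n) - 2 * cV (A i) φ) + ε := by
  have V0 : 0 ≤ cV (A i) φ := integral_nonneg fun z => ρnn (A i) hφ hφ0 z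
  have hG : ∀ᶠ n in atTop, 0 ≤ cF (A i) φ (u n) - 2 * cV (A i) φ := by
    rcases V0.eq_or_lt with h | h
    · refine Eventually.of_forall fun n => ?_
      have h1 : (fun z => φ z * (A i).ρ z) =ᵐ[volume] 0 :=
        (integral_eq_zero_iff_of_nonneg (fun z => ρnn (A i) hφ hφ0 z) (ρint (A i) hφ)).1 h.symm
      have h2 : cF (A i) φ (u n) = 0 := by
        unfold cF
        rw [integral_congr_ae (g := fun _ => (0 : ℝ))]
        · simp
        · filter_upwards [h1] with z hz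
          have : φ z * (A i).ρ z = 0 := hz
          rw [this, zero_mul]
      rw [h2, ← h]; simp
    · obtain ⟨s, s0, hs⟩ := H.small i hφ hφ0 (ε := cV (A i) φ ^ 2 / 2) (by positivity)
      refine hs.mono fun n hn => ?_
      have h1 : 0 ≤ cA (A i) φ (u n) s := cA_nn (A i) hφ hφ0 (u n) s
      have h2 : cV (A i) φ ^ 2 ≤ cA (A i) φ (u n) s *
        (cF (A i) φ (u n) - 2 * cV (A i) φ) + cV (A i) φ ^ 2 / 2 := hn
      by_contra hc
      have h3 := mul_nonpos_of_nonneg_of_nonpos h1 (le_of_lt (not_le.1 hc))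
      have h4 : 0 < cV (A i) φ ^ 2 := by positivity
      linarith
  obtain ⟨s, s0, hs⟩ := H.small i hφ hφ0 hε
  refine ⟨s, s0, ?_⟩
  filter_upwards [hG, hs] with n h1 h2
  refine ⟨h1, fun t ht => ?_⟩
  have h3 := mul_le_mul_of_nonneg_right (cA_anti (A i) hφ hφ0 (u n) ht) h1
  have h4 : cV (A i) φ ^ 2 ≤ cA (A i) φ (u n) s *
        (cF (A i) φ (u n) - 2 * cV (A i) φ) + ε := h2
  linarith

/-- the sum over the charts -/
theorem Hy.sum (H : Hy A lam u ν B) {s : Finset ℕ} {φ : ℕ → ℂ → ℝ}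
    (hφ : ∀ i ∈ s, TF (A i).c.target (φ i)) (hφ0 : ∀ i ∈ s, ∀ z, 0 ≤ φ i z) {η : ℝ} (hη : 0 < η) :
    ∃ t : ℝ, 0 < t ∧ ∀ᶠ n in atTop,
      0 ≤ (∑ i ∈ s, cF (A i) (φ i) (u n)) - 2 * ∑ i ∈ s, cV (A i) (φ i) ∧
      (∑ i ∈ s, cV (A i) (φ i)) ≤ √((∑ i ∈ s, cA (A i) (φ i) (u n) t) *
        ((∑ i ∈ s, cF (A i) (φ i) (u n)) - 2 * ∑ i ∈ s, cV (A i) (φ i))) + η := by
  classical
  obtain ⟨e, he⟩ : ∃ e : ℝ, e = η / (s.card + 1) := ⟨_, rfl⟩
  have e0 : 0 < e := by rw [he]; positivity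
  have h1 : ∀ i ∈ s, ∃ t : ℝ, 0 < t ∧ ∀ᶠ n in atTop,
      0 ≤ cF (A i) (φ i) (u n) - 2 * cV (A i) (φ i) ∧
      ∀ t' : ℝ, t' ≤ t → cV (A i) (φ i) ^ 2 ≤
        cA (A i) (φ i) (u n) t' * (cF (A i) (φ i) (u n) - 2 * cV (A i) (φ i)) + e ^ 2 :=
    fun i hi => H.chart i (hφ i hi) (hφ0 i hi) (by positivity)
  choose! T T0 hT using h1
  obtain ⟨t, t0, ht⟩ : ∃ t : ℝ, 0 < t ∧ ∀ i ∈ s, t ≤ T i := by
    rcases s.eq_empty_or_nonempty with h | h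
    · exact ⟨1, one_pos, by simp [h]⟩
    · obtain ⟨j, hj, hm⟩ := s.exists_min_image T h
      exact ⟨T j, T0 j hj, hm⟩
  refine ⟨t, t0, ?_⟩
  have h2 : ∀ᶠ n in atTop, ∀ i ∈ s, 0 ≤ cF (A i) (φ i) (u n) - 2 * cV (A i) (φ i) ∧
      ∀ t' : ℝ, t' ≤ T i → cV (A i) (φ i) ^ 2 ≤
        cA (A i) (φ i) (u n) t' * (cF (A i) (φ i) (u n) - 2 * cV (A i) (φ i)) + e ^ 2 :=
    (Filter.eventually_all_finset s).2 hT
  filter_upwards [h2] with n hn
  have eG : (∑ i ∈ s, cF (A i) (φ i) (u n)) - 2 * ∑ i ∈ s, cV (A i) (φ i) =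
      ∑ i ∈ s, (cF (A i) (φ i) (u n) - 2 * cV (A i) (φ i)) := by
    rw [Finset.sum_sub_distrib, Finset.mul_sum]
  rw [eG]
  refine ⟨Finset.sum_nonneg fun i hi => (hn i hi).1, ?_⟩
  have h3 : ∀ i ∈ s, cV (A i) (φ i) ≤ √(cA (A i) (φ i) (u n) t) *
      √(cF (A i) (φ i) (u n) - 2 * cV (A i) (φ i)) + e := by
    intro i hi
    have a0 := cA_nn (A i) (hφ i hi) (hφ0 i hi) (u n) t
    have g0 := (hn i hi).1
    have h4 := (hn i hi).2 t (ht i hi)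
    rw [← Real.sqrt_mul a0]
    have h5 : 0 ≤ √(cA (A i) (φ i) (u n) t * (cF (A i) (φ i) (u n) - 2 * cV (A i) (φ i))) :=
      Real.sqrt_nonneg _
    have h6 := Real.sq_sqrt (mul_nonneg a0 g0)
    refine abs_le_of_sq_le_sq' ?_ (by positivity) |>.2
    nlinarith
  have h4 : ∑ i ∈ s, √(cA (A i) (φ i) (u n) t) *
      √(cF (A i) (φ i) (u n) - 2 * cV (A i) (φ i)) ≤
      √(∑ i ∈ s, cA (A i) (φ i) (u n) t) *
      √(∑ i ∈ s, (cF (A i) (φ i) (u n) - 2 * cV (A i) (φ i))) := by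
    have := Real.sum_sqrt_mul_sqrt_le s (f := fun i => max (cA (A i) (φ i) (u n) t) 0)
      (g := fun i => max (cF (A i) (φ i) (u n) - 2 * cV (A i) (φ i)) 0)
      (fun i => le_max_right _ _) (fun i => le_max_right _ _)
    have e1 : ∑ i ∈ s, max (cA (A i) (φ i) (u n) t) 0 = ∑ i ∈ s, cA (A i) (φ i) (u n) t :=
      Finset.sum_congr rfl fun i hi =>
        max_eq_left (cA_nn (A i) (hφ i hi) (hφ0 i hi) (u n) t)
    have e2 : ∑ i ∈ s, max (cF (A i) (φ i) (u n) - 2 * cV (A i) (φ i)) 0 =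
        ∑ i ∈ s, (cF (A i) (φ i) (u n) - 2 * cV (A i) (φ i)) :=
      Finset.sum_congr rfl fun i hi => max_eq_left (hn i hi).1
    have e3 : ∑ i ∈ s, √(max (cA (A i) (φ i) (u n) t) 0) *
        √(max (cF (A i) (φ i) (u n) - 2 * cV (A i) (φ i)) 0) =
        ∑ i ∈ s, √(cA (A i) (φ i) (u n) t) *
        √(cF (A i) (φ i) (u n) - 2 * cV (A i) (φ i)) :=
      Finset.sum_congr rfl fun i hi => by
        rw [max_eq_left (cA_nn (A i) (hφ i hi) (hφ0 i hi) (u n) t), max_eq_left (hn i hi).1]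
    rw [e1, e2, e3] at this
    exact this
  rw [Real.sqrt_mul (Finset.sum_nonneg fun i hi => cA_nn (A i) (hφ i hi) (hφ0 i hi) (u n) t)]
  calc (∑ i ∈ s, cV (A i) (φ i)) ≤ ∑ i ∈ s, (√(cA (A i) (φ i) (u n) t) *
      √(cF (A i) (φ i) (u n) - 2 * cV (A i) (φ i)) + e) := Finset.sum_le_sum h3
    _ = (∑ i ∈ s, √(cA (A i) (φ i) (u n) t) *
      √(cF (A i) (φ i) (u n) - 2 * cV (A i) (φ i))) + s.card * e := by
        rw [Finset.sum_add_distrib, Finset.sum_const, nsmul_eq_mul]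
    _ ≤ _ + η := by
        have h7 : (s.card : ℝ) * e ≤ η := by
          rw [he]
          rw [mul_div_assoc', div_le_iff₀ (by positivity)]
          nlinarith
        linarith

lemma arith {V a G c δ x : ℝ} (hV : 0 < V) (ha : 0 ≤ a) (haV : a ≤ V) (hG0 : 0 ≤ G)
    (hG : G ≤ (c + δ) * V) (hδ : 0 < δ) (hx : 0 < x) (hx1 : x < 1)
    (h : V ≤ √(a * G) + x * V) : (1 - x) ^ 2 * V ≤ a * (c + δ) := by
  have h1 : (1 - x) * V ≤ √(a * G) := by linarith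
  have h2 : ((1 - x) * V) ^ 2 ≤ a * G := by
    have h3 : 0 ≤ (1 - x) * V := mul_nonneg (by linarith) hV.le
    calc ((1 - x) * V) ^ 2 ≤ √(a * G) ^ 2 := pow_le_pow_left₀ h3 h1 2
      _ = a * G := Real.sq_sqrt (mul_nonneg ha hG0)
  have h4 : a * G ≤ a * ((c + δ) * V) := mul_le_mul_of_nonneg_left hG ha
  have h5 : (1 - x) ^ 2 * V * V ≤ a * (c + δ) * V := by nlinarith
  exact le_of_mul_le_mul_right h5 hV

end

end Run7.h694.FM
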