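import Pool.Agent.Run7.h694.FM.C

/-! Global statements: masses and moments (helper694). -/

set_option autoImplicit false
open MeasureTheory Filter Topology Complex ProbabilityTheory
open scoped ContDiff ENNReal BoundedContinuousFunction

namespace Run7.h694.FM

noncomputable section

open Pool.Agent.N252.TV Pool.Agent.N252.LL Pool.Agent.W745.RW
open Pool.Agent.Results.MP_4fa179_mp.SmallValues (D sym parallel)

variable {X : Type*} [TopologicalSpace X] [MeasurableSpace X] [BorelSpace X] {vol : Measure X}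
variable {A : ℕ → IsoChart X vol} {lam : ℕ → ℝ} {u : ℕ → X → ℝ} {ν : ℕ → Kernel ℂ ℝ} {B : ℝ}
  {s : Finset ℕ} {φ : ℕ → ℂ → ℝ} {Φ : X → ℝ}

/-- powers of `u` -/
lemma te_pow (T : IsTe A s φ Φ) {L : ℝ} {f : X → ℝ} (hf : IsEigen A L f) (k : ℕ) :
    Integrable (fun x => Φ x * f x ^ k) vol ∧ ∫ x, Φ x * f x ^ k ∂vol =
      ∑ i ∈ s, ∫ z, φ i z * (A i).ρ z * (f ∘ (A i).c.symm) z ^ k := by
  have h1 := T.int (F := fun x => f x ^ k) (hf.meas.pow_const k) fun i hi =>
    te_cont (A i) (T.tf i hi) (G := fun z => (f ∘ (A i).c.symm) z ^ k)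
      ((hf.smooth i).continuousOn.pow k)
  refine ⟨h1.1, h1.2.trans (Finset.sum_congr rfl fun i hi => ?_)⟩
  exact (A i).intt (T.tf i hi) _

lemma te_V (T : IsTe A s φ Φ) {L : ℝ} {f : X → ℝ} (hf : IsEigen A L f) :
    Integrable Φ vol ∧ ∫ x, Φ x ∂vol = ∑ i ∈ s, cV (A i) (φ i) := by
  have h := te_pow T hf 0
  simp only [pow_zero, mul_one] at h
  exact h

lemma te_A (T : IsTe A s φ Φ) {L : ℝ} {f : X → ℝ} (hf : IsEigen A L f) (t : ℝ)
    [IsFiniteMeasure vol] :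
    ∫ x in {x | |f x| ≤ t}, Φ x ∂vol = (∫ x, Φ x ∂vol) - ∑ i ∈ s, cA (A i) (φ i) f t := by
  classical
  have mS : MeasurableSet {x | t < |f x|} := measurableSet_lt measurable_const hf.meas.abs
  have h1 := te_bdd T (F := {x | t < |f x|}.indicator fun _ => (1 : ℝ))
    (measurable_const.indicator mS) (K := 1) fun x => by
      rw [abs_le]
      by_cases hx : x ∈ {x | t < |f x|}
      · rw [Set.indicator_of_mem hx]; norm_num
      · rw [Set.indicator_of_notMem hx]; norm_num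
  have e1 : ∫ x, Φ x * ({x | t < |f x|}.indicator (fun _ => (1 : ℝ)) x) ∂vol =
      ∫ x in {x | t < |f x|}, Φ x ∂vol := by
    rw [← integral_indicator mS]
    congr 1
    funext x
    by_cases hx : x ∈ {x | t < |f x|}
    · rw [Set.indicator_of_mem hx, Set.indicator_of_mem hx, mul_one]
    · rw [Set.indicator_of_notMem hx, Set.indicator_of_notMem hx, mul_zero]
  have e2 : ∀ i ∈ s, ∫ z, φ i z * ({x | t < |f x|}.indicator (fun _ => (1 : ℝ))
      ((A i).c.symm z)) ∂(A i).m = cA (A i) (φ i) f t := by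
    intro i hi
    rw [(A i).intt (T.tf i hi) (fun z => {x | t < |f x|}.indicator (fun _ => (1 : ℝ))
      ((A i).c.symm z))]
    have oS : IsOpen {z | z ∈ (A i).c.target ∧ t < |(f ∘ (A i).c.symm) z|} := by
      have := (hf.smooth i).continuousOn.abs.isOpen_inter_preimage (A i).c.open_target
        (isOpen_Ioi (a := t))
      exact this
    unfold cA
    rw [← integral_indicator oS.measurableSet]
    congr 1
    funext z
    by_cases hz : z ∈ (A i).c.target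
    · by_cases h2 : t < |(f ∘ (A i).c.symm) z|
      · rw [Set.indicator_of_mem (show (A i).c.symm z ∈ {x | t < |f x|} from h2),
          Set.indicator_of_mem (show z ∈ {z | z ∈ (A i).c.target ∧
            t < |(f ∘ (A i).c.symm) z|} from ⟨hz, h2⟩), mul_one]
      · rw [Set.indicator_of_notMem (show (A i).c.symm z ∉ {x | t < |f x|} from h2),
          Set.indicator_of_notMem (show z ∉ {z | z ∈ (A i).c.target ∧
            t < |(f ∘ (A i).c.symm) z|} from fun h => h2 h.2), mul_zero]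
    · rw [Set.indicator_of_notMem (show z ∉ {z | z ∈ (A i).c.target ∧
            t < |(f ∘ (A i).c.symm) z|} from fun h => hz h.1),
          image_eq_zero_of_notMem_tsupport fun h => hz ((T.tf i hi).2.2 h)]
      ring
  have h2 : ∫ x in {x | t < |f x|}, Φ x ∂vol = ∑ i ∈ s, cA (A i) (φ i) f t := by
    rw [← e1, h1.2]
    exact Finset.sum_congr rfl e2
  have h3 : {x | |f x| ≤ t} = {x | t < |f x|}ᶜ := by
    ext x; simp
  rw [h3, ← h2, setIntegral_compl mS (te_V T hf).1]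

lemma te_A_nn (T : IsTe A s φ Φ) (f : X → ℝ) (t : ℝ) : 0 ≤ ∑ i ∈ s, cA (A i) (φ i) f t :=
  Finset.sum_nonneg fun i hi => cA_nn (A i) (T.tf i hi) (T.nn i hi) f t

/-- **Small values.** -/
theorem Hy.small_mass [IsFiniteMeasure vol] (H : Hy A lam u ν B) (T : IsTe A s φ Φ)
    (V0 : 0 < ∫ x, Φ x ∂vol) {κ : ℝ}
    (hκ : ∀ δ : ℝ, 0 < δ → ∀ᶠ n in atTop, ∫ x, Φ x * u n x ^ 4 ∂vol ≤ (κ + δ) * ∫ x, Φ x ∂vol) :
    3 ≤ κ ∧ ∀ η : ℝ, 0 < η → ∃ t : ℝ, 0 < t ∧ ∀ᶠ n in atTop,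
      ∫ x in {x | |u n x| ≤ t}, Φ x ∂vol ≤ ((κ - 3) / (κ - 2) + η) * ∫ x, Φ x ∂vol := by
  obtain ⟨V, hV⟩ : ∃ V, V = ∫ x, Φ x ∂vol := ⟨_, rfl⟩
  rw [← hV] at V0
  have base : ∀ δ x : ℝ, 0 < δ → 0 < x → x < 1 → ∃ t : ℝ, 0 < t ∧ ∀ᶠ n in atTop,
      (1 - x) ^ 2 * V ≤ (∑ i ∈ s, cA (A i) (φ i) (u n) t) * (κ - 2 + δ) ∧
      (∑ i ∈ s, cA (A i) (φ i) (u n) t) ≤ V := by
    intro δ x hδ hx hx1
    obtain ⟨t, t0, ht⟩ := H.sum T.tf T.nn (η := x * V) (by positivity)
    refine ⟨t, t0, ?_⟩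
    filter_upwards [ht, hκ δ hδ] with n h1 h2
    have eV := (te_V T (H.ei n)).2
    have eF := (te_pow T (H.ei n) 4).2
    rw [← hV] at eV h2
    rw [← eV] at h1
    have eF2 : ∑ i ∈ s, cF (A i) (φ i) (u n) = ∫ x, Φ x * u n x ^ 4 ∂vol := eF.symm
    rw [eF2] at h1
    have aV : ∑ i ∈ s, cA (A i) (φ i) (u n) t ≤ V := by
      have h3 := te_A T (H.ei n) t
      have h4 : 0 ≤ ∫ x in {x | |u n x| ≤ t}, Φ x ∂vol := integral_nonneg fun x => T.nnΦ x
      rw [← hV] at h3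
      linarith
    refine ⟨arith V0 (te_A_nn T (u n) t) aV h1.1 ?_ hδ hx hx1 h1.2, aV⟩
    linarith
  have k3 : 3 ≤ κ := by
    by_contra hc
    obtain ⟨c, hc'⟩ : ∃ c, c = κ - 2 := ⟨_, rfl⟩
    have c1 : c < 1 := by rw [hc']; linarith
    rcases le_or_gt c (-1) with h | h
    · obtain ⟨t, t0, ht⟩ := base 1 (1 / 2) (by norm_num) (by norm_num) (by norm_num)
      obtain ⟨n, h1, h2⟩ := ht.exists
      have a0 := te_A_nn T (u n) t
      rw [← hc'] at h1
      nlinarith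
    · obtain ⟨t, t0, ht⟩ := base ((1 - c) / 3) ((1 - c) / 6) (by linarith) (by linarith)
        (by linarith)
      obtain ⟨n, h1, h2⟩ := ht.exists
      rw [← hc'] at h1
      have a0 := te_A_nn T (u n) t
      rcases le_or_gt (c + (1 - c) / 3) 0 with h3 | h3
      · have : 0 < (1 - (1 - c) / 6) ^ 2 * V := by
          have : 0 < 1 - (1 - c) / 6 := by linarith
          positivity
        nlinarith
      · have h4 : (∑ i ∈ s, cA (A i) (φ i) (u n) t) * (c + (1 - c) / 3) ≤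
            V * (c + (1 - c) / 3) := mul_le_mul_of_nonneg_right h2 h3.le
        have h5 : (1 - (1 - c) / 6) ^ 2 * V ≤ (c + (1 - c) / 3) * V := by linarith
        have h6 := le_of_mul_le_mul_right h5 V0
        nlinarith [sq_nonneg ((1 - c) / 6)]
  refine ⟨k3, fun η hη => ?_⟩
  obtain ⟨c, hc'⟩ : ∃ c, c = κ - 2 := ⟨_, rfl⟩
  have c1 : 1 ≤ c := by rw [hc']; linarith
  obtain ⟨x, hx, hx1, hxη⟩ : ∃ x : ℝ, 0 < x ∧ x < 1 ∧ x ≤ η / 4 :=
    ⟨min (1 / 2) (η / 4), by positivity, lt_of_le_of_lt (min_le_left _ _) (by norm_num),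
      min_le_right _ _⟩
  obtain ⟨t, t0, ht⟩ := base (η / 2) x (by positivity) hx hx1
  refine ⟨t, t0, ?_⟩
  filter_upwards [ht] with n hn
  obtain ⟨h1, h2⟩ := hn
  have h3 := te_A T (H.ei n) t
  rw [← hV] at h3 ⊢
  rw [h3]
  rw [← hc'] at h1
  have a0 := te_A_nn T (u n) t
  have c0 : 0 < c := by linarith
  have e : (κ - 3) / (κ - 2) = 1 - 1 / c := by
    rw [hc']
    have : κ - 2 ≠ 0 := by linarith
    field_simp; ring
  rw [e]
  -- `a ≥ V (1 / c - η)`
  suffices h : (1 / c - η) * V ≤ ∑ i ∈ s, cA (A i) (φ i) (u n) t by linarith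
  have h5 : (1 / c - η) * (c + η / 2) ≤ (1 - x) ^ 2 := by
    have h6 : (1 / c - η) * (c + η / 2) = 1 + η / 2 / c - η * c - η ^ 2 / 2 := by
      field_simp; ring
    have h7 : η / 2 / c ≤ η / 2 := div_le_self (by positivity) c1
    have h8 : η ≤ η * c := by nlinarith
    rw [h6]
    nlinarith [sq_nonneg x, sq_nonneg η]
  have h9 : (1 / c - η) * V * (c + η / 2) ≤ (∑ i ∈ s, cA (A i) (φ i) (u n) t) * (c + η / 2) := by
    nlinarith
  exact le_of_mul_le_mul_right h9 (by positivity)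

end

end Run7.h694.FM
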