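import Pool.Agent.Run7.h694.FM.D

/-! The first three moments (helper694). -/

set_option autoImplicit false
open MeasureTheory Filter Topology Complex ProbabilityTheory
open scoped ContDiff ENNReal BoundedContinuousFunction

namespace Run7.h694.FM

noncomputable section

open Pool.Agent.N252.TV Pool.Agent.N252.LL Pool.Agent.W745.RW
open Pool.Agent.Results.MP_4fa179_mp.SmallValues (D sym parallel)

variable {X : Type*} [TopologicalSpace X] [MeasurableSpace X] [BorelSpace X] {vol : Measure X}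
variable {A : ℕ → IsoChart X vol} {lam : ℕ → ℝ} {u : ℕ → X → ℝ} {ν : ℕ → Kernel ℂ ℝ} {B : ℝ}
  {s : Finset ℕ} {φ : ℕ → ℂ → ℝ} {Φ : X → ℝ}

/-- `L²` bounds -/
lemma Hy.l2 [IsFiniteMeasure vol] (H : Hy A lam u ν B) :
    ∀ n, MemLp (u n) 2 vol ∧ ∫ x, u n x ^ 2 ∂vol ≤ vol.real Set.univ + B := by
  intro n
  have i1 : Integrable (fun x => 1 + u n x ^ 4) vol := (integrable_const 1).add (H.l4 n).1
  have i2 : Integrable (fun x => u n x ^ 2) vol := by
    refine Integrable.mono' i1 ((H.ei n).meas.pow_const 2).aestronglyMeasurable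
      (ae_of_all _ fun x => ?_)
    rw [Real.norm_eq_abs, abs_of_nonneg (sq_nonneg _)]
    exact nb
  refine ⟨(memLp_two_iff_integrable_sq (H.ei n).meas.aestronglyMeasurable).2 i2, ?_⟩
  refine (integral_mono i2 i1 fun x => nb).trans ?_
  rw [integral_add (integrable_const 1) (H.l4 n).1, integral_const, smul_eq_mul, mul_one]
  have := (H.l4 n).2
  linarith

/-- first moments in a chart -/
lemma Hy.c1 [IsFiniteMeasure vol] (H : Hy A lam u ν B) (i : ℕ) {φ : ℂ → ℝ}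
    (hφ : TF (A i).c.target φ) (hφ0 : ∀ z, 0 ≤ φ z) :
    Tendsto (fun n => ∫ z, φ z * (A i).ρ z * (u n ∘ (A i).c.symm) z ^ 1) atTop (𝓝 0) := by
  have h := Pool.Agent.Y139.PD.S2 (Ω := (A i).c.target) (ρ := (A i).ρ) (lam := lam)
    (u := fun n => u n ∘ (A i).c.symm)
    ⟨(A i).c.open_target, (A i).smooth, (A i).pos, H.ll, fun n => (H.ei n).smooth i,
      fun n => (H.ei n).eq i, loc_l2 (A i) (fun n => (H.ei n).smooth i) H.l2⟩
    (φ := φ) ⟨hφ.1, hφ.2.1, hφ.2.2, hφ0⟩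
  refine h.congr fun n => ?_
  congr 1
  funext z
  ring

/-- second moments in a chart -/
lemma Hy.c2 (H : Hy A lam u ν B) (i : ℕ) {φ : ℂ → ℝ} (hφ : TF (A i).c.target φ) :
    Tendsto (fun n => ∫ z, φ z * (A i).ρ z * (u n ∘ (A i).c.symm) z ^ 2) atTop
      (𝓝 (cV (A i) φ)) := by
  have := H.mar i
  have h := H.sc i φ hφ 0
  simp only [Function.iterate_zero, id_eq, pow_zero] at h
  have e1 : ∀ n, ∫ z, ((φ z * (A i).ρ z : ℝ) : ℂ) * (((u n ∘ (A i).c.symm) z : ℂ) *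
      ((u n ∘ (A i).c.symm) z : ℂ)) =
      ((∫ z, φ z * (A i).ρ z * (u n ∘ (A i).c.symm) z ^ 2 : ℝ) : ℂ) := by
    intro n
    rw [← integral_complex_ofReal]
    congr 1
    funext z
    push_cast
    ring
  have e2 : ∫ z, ((φ z * (A i).ρ z : ℝ) : ℂ) * ∫ _α, (1 : ℂ) ∂(ν i z) = ((cV (A i) φ : ℝ) : ℂ) := by
    unfold cV
    rw [← integral_complex_ofReal]
    congr 1
    funext z
    simp
  rw [e2] at h
  have h2 := (Complex.continuous_re.tendsto _).comp h
  refine h2.congr fun n => ?_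
  show (∫ z, ((φ z * (A i).ρ z : ℝ) : ℂ) * (((u n ∘ (A i).c.symm) z : ℂ) *
      ((u n ∘ (A i).c.symm) z : ℂ))).re = _
  rw [e1, ofReal_re]

/-- third moments in a chart -/
lemma Hy.c3 (H : Hy A lam u ν B) (i : ℕ) {φ : ℂ → ℝ} (hφ : TF (A i).c.target φ) :
    Tendsto (fun n => ∫ z, φ z * (A i).ρ z * (u n ∘ (A i).c.symm) z ^ 3) atTop (𝓝 0) := by
  have := H.mar i
  obtain ⟨K, hK, h1, h2⟩ := exists_compact_between hφ.2.1 (A i).c.open_target hφ.2.2
  obtain ⟨R, hR⟩ := loc_l4 (A i) (fun n => (H.ei n).smooth i) H.l4 hK h2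
  have R0 : 0 ≤ R := (setIntegral_nonneg hK.measurableSet fun z _ => by positivity).trans (hR 0)
  have key := Pool.Agent.Results.MP_a52643_an.ThirdMoments.result (A i).c.target
    (A i).c.open_target (A i).ρ (A i).smooth (A i).pos lam H.pos H.ll
    (fun n => u n ∘ (A i).c.symm) (fun n => (H.ei n).smooth i) (fun n => (H.ei n).eq i)
    (fun _ => 1) (fun K hK _ => by
      have : IsFiniteMeasure (volume.restrict K) := ⟨by
        rw [Measure.restrict_apply_univ]; exact hK.measure_lt_top⟩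
      exact memLp_const 1) (ν i) (H.sc1 i) (H.par i)
    K hK h2 φ ⟨hφ.1, hφ.2.1, h1⟩ 0 0 0
  have e1 : ∀ n, (∫ z, ((φ z * (A i).ρ z : ℝ) : ℂ) *
      (Pool.Agent.Results.MP_a52643_an.ThirdMoments.W (A i).ρ (lam n)
        (u n ∘ (A i).c.symm) 0 z *
       Pool.Agent.Results.MP_a52643_an.ThirdMoments.W (A i).ρ (lam n)
        (u n ∘ (A i).c.symm) 0 z *
       Pool.Agent.Results.MP_a52643_an.ThirdMoments.W (A i).ρ (lam n)
        (u n ∘ (A i).c.symm) 0 z)) =
      ((∫ z, φ z * (A i).ρ z * (u n ∘ (A i).c.symm) z ^ 3 : ℝ) : ℂ) := by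
    intro n
    rw [← integral_complex_ofReal]
    congr 1
    funext z
    show ((φ z * (A i).ρ z : ℝ) : ℂ) * (((u n ∘ (A i).c.symm) z : ℂ) *
      ((u n ∘ (A i).c.symm) z : ℂ) * ((u n ∘ (A i).c.symm) z : ℂ)) = _
    push_cast
    ring
  have h3 : Tendsto (fun n => |∫ z, φ z * (A i).ρ z * (u n ∘ (A i).c.symm) z ^ 3| /
      √(1 + ∫ z in K, (u n ∘ (A i).c.symm) z ^ 4)) atTop (𝓝 0) := by
    have h4 := key.norm
    rw [norm_zero] at h4
    refine h4.congr fun n => ?_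
    rw [e1, norm_div, Complex.norm_real, Complex.norm_real, Real.norm_eq_abs, Real.norm_eq_abs,
      abs_of_nonneg (Real.sqrt_nonneg _)]
  have h5 : Tendsto (fun n => √(1 + R) * (|∫ z, φ z * (A i).ρ z * (u n ∘ (A i).c.symm) z ^ 3| /
      √(1 + ∫ z in K, (u n ∘ (A i).c.symm) z ^ 4))) atTop (𝓝 0) := by
    have := h3.const_mul (√(1 + R)); rwa [mul_zero] at this
  refine squeeze_zero_norm (fun n => ?_) h5
  rw [Real.norm_eq_abs]
  have p1 : 0 < √(1 + ∫ z in K, (u n ∘ (A i).c.symm) z ^ 4) := by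
    refine Real.sqrt_pos.2 ?_
    have := setIntegral_nonneg (μ := volume) (f := fun z => (u n ∘ (A i).c.symm) z ^ 4)
      hK.measurableSet fun z _ => by positivity
    linarith
  have p2 : √(1 + ∫ z in K, (u n ∘ (A i).c.symm) z ^ 4) ≤ √(1 + R) :=
    Real.sqrt_le_sqrt (by linarith [hR n])
  rw [mul_div_assoc', le_div_iff₀ p1, mul_comm]
  exact mul_le_mul_of_nonneg_right p2 (abs_nonneg _)

/-- the limits of the first three moments -/
theorem Hy.moments [IsFiniteMeasure vol] (H : Hy A lam u ν B) (T : IsTe A s φ Φ) :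
    Tendsto (fun n => ∫ x, Φ x * u n x ^ 1 ∂vol) atTop (𝓝 0) ∧
    Tendsto (fun n => ∫ x, Φ x * u n x ^ 2 ∂vol) atTop (𝓝 (∫ x, Φ x ∂vol)) ∧
    Tendsto (fun n => ∫ x, Φ x * u n x ^ 3 ∂vol) atTop (𝓝 0) := by
  have e : ∀ k n, ∫ x, Φ x * u n x ^ k ∂vol =
      ∑ i ∈ s, ∫ z, φ i z * (A i).ρ z * (u n ∘ (A i).c.symm) z ^ k := fun k n =>
    (te_pow T (H.ei n) k).2
  refine ⟨?_, ?_, ?_⟩
  · have h := tendsto_finsetSum (s := s) fun i hi => H.c1 i (T.tf i hi) (T.nn i hi)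
    rw [Finset.sum_const_zero] at h
    exact h.congr fun n => (e 1 n).symm
  · have h := tendsto_finsetSum (s := s) fun i hi => H.c2 i (T.tf i hi)
    rw [(te_V T (H.ei 0)).2]
    exact h.congr fun n => (e 2 n).symm
  · have h := tendsto_finsetSum (s := s) fun i hi => H.c3 i (T.tf i hi)
    rw [Finset.sum_const_zero] at h
    exact h.congr fun n => (e 3 n).symm

end

end Run7.h694.FM
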