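import Pool.Agent.Run7.h694.FM.E

/-! Limit laws (helper694). -/

set_option autoImplicit false
open MeasureTheory Filter Topology Complex ProbabilityTheory
open scoped ContDiff ENNReal BoundedContinuousFunction

namespace Run7.h694.FM

noncomputable section

open Pool.Agent.N252.TV Pool.Agent.N252.LL Pool.Agent.W745.RW
open Pool.Agent.Results.MP_4fa179_mp.SmallValues (D sym parallel)

variable {X : Type*} [TopologicalSpace X] [MeasurableSpace X] [BorelSpace X] {vol : Measure X}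
variable {A : ℕ → IsoChart X vol} {lam : ℕ → ℝ} {u : ℕ → X → ℝ} {ν : ℕ → Kernel ℂ ℝ} {B : ℝ}
  {s : Finset ℕ} {φ : ℕ → ℂ → ℝ} {Φ : X → ℝ}

/-- the tent -/
def tent (t x : ℝ) : ℝ := max 0 (1 - |x| / t)

lemma tent_cont (t : ℝ) : Continuous (tent t) := by unfold tent; fun_prop

lemma tent_nn (t x : ℝ) : 0 ≤ tent t x := le_max_left _ _

lemma tent_le {t : ℝ} (ht : 0 < t) (x : ℝ) : tent t x ≤ 1 := by
  unfold tent
  refine max_le zero_le_one ?_
  have : 0 ≤ |x| / t := by positivity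
  linarith

lemma tent_zero (t : ℝ) : tent t 0 = 1 := by unfold tent; simp

lemma tent_out {t x : ℝ} (ht : 0 < t) (h : t < |x|) : tent t x = 0 := by
  unfold tent
  refine max_eq_left ?_
  have : 1 ≤ |x| / t := by rw [le_div_iff₀ ht]; linarith
  linarith

/-- weak limits of the laws of the first jets -/
theorem Hy.limits [IsFiniteMeasure vol] (H : Hy A lam u ν B) (T : IsTe A s φ Φ)
    (V0 : 0 < ∫ x, Φ x ∂vol) {E : ℕ → X → ℝ} (mE : ∀ n, Measurable (E n)) {κ : ℝ}
    (hκ : ∀ δ : ℝ, 0 < δ → ∀ᶠ n in atTop, ∫ x, Φ x * u n x ^ 4 ∂vol ≤ (κ + δ) * ∫ x, Φ x ∂vol)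
    (P : Measure (ℝ × ℝ)) [IsProbabilityMeasure P]
    (hP : ∀ F : (ℝ × ℝ) →ᵇ ℝ, Tendsto (fun n => ∫ x, Φ x * F (u n x, E n x) ∂vol) atTop
      (𝓝 ((∫ x, Φ x ∂vol) * ∫ p, F p ∂P))) :
    (Integrable (fun p : ℝ × ℝ => p.1 ^ 4) P ∧ ∫ p, p.1 ∂P = 0 ∧ ∫ p, p.1 ^ 2 ∂P = 1 ∧
      ∫ p, p.1 ^ 3 ∂P = 0 ∧ ∫ p, p.1 ^ 4 ∂P ≤ κ) ∧
    P.real {p | p.1 = 0} ≤ (κ - 3) / (κ - 2) := by
  obtain ⟨V, hV⟩ : ∃ V, V = ∫ x, Φ x ∂vol := ⟨_, rfl⟩
  have iΦ := (te_V T (H.ei 0)).1
  constructor
  · -- moments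
    have fJ : ∀ n, IsFiniteMeasure (jet vol Φ (u n) (E n)) := by
      intro n
      have : IsFiniteMeasure (vol.withDensity fun x => ENNReal.ofReal (Φ x)) :=
        isFiniteMeasure_withDensity_ofReal iΦ.2
      unfold jet
      infer_instance
    have fP : IsFiniteMeasure (ENNReal.ofReal V • P) := Measure.smul_finite _ ENNReal.ofReal_ne_top
    have nz : ENNReal.ofReal V ≠ 0 := by
      rw [Ne, ENNReal.ofReal_eq_zero, not_le, hV]; exact V0
    have gI : ∀ f : ℝ × ℝ → ℝ, ∫ p, f p ∂(ENNReal.ofReal V • P) = V * ∫ p, f p ∂P := by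
      intro f
      rw [integral_smul_measure, ENNReal.toReal_ofReal (by rw [hV]; exact V0.le), smul_eq_mul]
    have jI : ∀ n {F : ℝ × ℝ → ℝ}, Measurable F → ∫ p, F p ∂(jet vol Φ (u n) (E n)) =
        ∫ x, Φ x * F (u n x, E n x) ∂vol := fun n F hF =>
      jet_int T.meas T.nnΦ (H.ei n).meas (mE n) hF
    obtain ⟨K, K0, hK⟩ := T.bd
    have i4 : ∀ n, Integrable (fun p : ℝ × ℝ => p.1 ^ 4) (jet vol Φ (u n) (E n)) := fun n =>
      jet_itg T.meas T.nnΦ (H.ei n).meas (mE n) (F := fun p : ℝ × ℝ => p.1 ^ 4) (by fun_prop)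
        (te_pow T (H.ei n) 4).1
    have hC : ∀ n, ∫ p, p.1 ^ 4 ∂(jet vol Φ (u n) (E n)) ≤ K * B := by
      intro n
      rw [jI n (F := fun p : ℝ × ℝ => p.1 ^ 4) (by fun_prop)]
      calc ∫ x, Φ x * u n x ^ 4 ∂vol ≤ ∫ x, K * u n x ^ 4 ∂vol := by
            refine integral_mono (te_pow T (H.ei n) 4).1 ((H.l4 n).1.const_mul K) fun x => ?_
            exact mul_le_mul_of_nonneg_right (hK x) (by positivity)
        _ = K * ∫ x, u n x ^ 4 ∂vol := integral_const_mul _ _
        _ ≤ K * B := mul_le_mul_of_nonneg_left (H.l4 n).2 K0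
    have hw : ∀ F : (ℝ × ℝ) →ᵇ ℝ, Tendsto (fun n => ∫ p, F p ∂(jet vol Φ (u n) (E n))) atTop
        (𝓝 (∫ p, F p ∂(ENNReal.ofReal V • P))) := by
      intro F
      rw [gI, hV]
      exact (hP F).congr fun n => (jI n F.continuous.measurable).symm
    obtain ⟨m1, m2, m3⟩ := mom_lim hw i4 hC
    have iP : Integrable (fun p : ℝ × ℝ => p.1 ^ 4) P :=
      (integrable_smul_measure nz ENNReal.ofReal_ne_top).1 m1
    have mk : ∀ k : ℕ, k ≤ 3 → Tendsto (fun n => ∫ x, Φ x * u n x ^ k ∂vol) atTop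
        (𝓝 (V * ∫ p, p.1 ^ k ∂P)) := by
      intro k hk
      have h1 := m3 k hk
      rw [gI] at h1
      exact h1.congr fun n => jI n (F := fun p : ℝ × ℝ => p.1 ^ k) (by fun_prop)
    obtain ⟨q1, q2, q3⟩ := H.moments T
    have V0' : V ≠ 0 := by rw [hV]; exact V0.ne'
    have r1 := tendsto_nhds_unique q1 (mk 1 (by norm_num))
    have r2 := tendsto_nhds_unique q2 (mk 2 (by norm_num))
    have r3 := tendsto_nhds_unique q3 (mk 3 (by norm_num))
    refine ⟨iP, ?_, ?_, ?_, ?_⟩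
    · have := (mul_eq_zero.1 r1.symm).resolve_left V0'
      simpa only [pow_one] using this
    · rw [← hV] at r2
      have h : V * 1 = V * ∫ p, p.1 ^ 2 ∂P := by rw [mul_one]; exact r2
      exact (mul_left_cancel₀ V0' h).symm
    · exact (mul_eq_zero.1 r3.symm).resolve_left V0'
    · have h := m2 (κ * V) fun δ hδ => by
        have h1 := hκ (δ / V) (by rw [hV]; positivity)
        refine h1.mono fun n hn => ?_
        rw [jI n (F := fun p : ℝ × ℝ => p.1 ^ 4) (by fun_prop)]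
        refine hn.trans (le_of_eq ?_)
        rw [← hV]
        field_simp
      rw [gI, mul_comm κ V] at h
      exact le_of_mul_le_mul_left h (by rw [hV]; exact V0)
  · -- the atom
    obtain ⟨k3, hs⟩ := H.small_mass T V0 hκ
    refine le_of_forall_pos_le_add fun η hη => ?_
    obtain ⟨t, t0, ht⟩ := hs η hη
    obtain ⟨F, hF⟩ : ∃ F : (ℝ × ℝ) →ᵇ ℝ, ∀ p, F p = tent t p.1 :=
      ⟨BoundedContinuousFunction.ofNormedAddCommGroup (fun p : ℝ × ℝ => tent t p.1)
        ((tent_cont t).comp continuous_fst) 1 (fun p => by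
          rw [Real.norm_eq_abs, abs_of_nonneg (tent_nn t _)]; exact tent_le t0 _), fun p => rfl⟩
    have h1 : ∫ p, F p ∂P ≤ (κ - 3) / (κ - 2) + η := by
      have h2 : (∫ x, Φ x ∂vol) * ∫ p, F p ∂P ≤
          ((κ - 3) / (κ - 2) + η) * ∫ x, Φ x ∂vol := by
        refine le_of_tendsto (hP F) (ht.mono fun n hn => le_trans ?_ hn)
        have mS : MeasurableSet {x | |u n x| ≤ t} :=
          measurableSet_le (H.ei n).meas.abs measurable_const
        rw [← integral_indicator mS]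
        refine integral_mono ?_ (iΦ.indicator mS) fun x => ?_
        · exact (te_bdd T (F := fun x => F (u n x, E n x))
            (F.continuous.measurable.comp ((H.ei n).meas.prodMk (mE n))) (K := 1) fun x => by
              rw [hF, abs_of_nonneg (tent_nn t _)]; exact tent_le t0 _).1
        · show Φ x * F (u n x, E n x) ≤ {x | |u n x| ≤ t}.indicator Φ x
          rw [hF]
          by_cases hx : |u n x| ≤ t
          · rw [Set.indicator_of_mem (show x ∈ {x | |u n x| ≤ t} from hx)]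
            have := mul_le_mul_of_nonneg_left (tent_le t0 (u n x)) (T.nnΦ x)
            linarith
          · rw [Set.indicator_of_notMem (show x ∉ {x | |u n x| ≤ t} from hx),
              tent_out t0 (not_le.1 hx), mul_zero]
      rw [mul_comm] at h2
      exact le_of_mul_le_mul_right h2 V0
    refine le_trans ?_ h1
    have mZ : MeasurableSet {p : ℝ × ℝ | p.1 = 0} :=
      measurableSet_eq_fun measurable_fst measurable_const
    rw [← integral_indicator_one mZ]
    refine integral_mono ((integrable_const (1 : ℝ)).indicator mZ) (F.integrable P) fun p => ?_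
    rw [hF]
    by_cases hp : p.1 = 0
    · rw [Set.indicator_of_mem (show p ∈ {p : ℝ × ℝ | p.1 = 0} from hp), hp, tent_zero]
      exact le_refl _
    · rw [Set.indicator_of_notMem (show p ∉ {p : ℝ × ℝ | p.1 = 0} from hp)]
      exact tent_nn t _

end

end Run7.h694.FM
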