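import Pool.Agent.Run7.h694.FM.E

/-! Signs and tails of the values in regions of a surface (helper694). -/

set_option autoImplicit false
open MeasureTheory Filter Topology Complex ProbabilityTheory
open scoped ContDiff ENNReal BoundedContinuousFunction

namespace Run7.h694.FM

noncomputable section

open Pool.Agent.N252.TV Pool.Agent.N252.LL Pool.Agent.W745.RW

/-- the quartic minorant of the indicator of the positive numbers -/
lemma minor {κ : ℝ} (hκ : 0 < κ) : ∃ b d : ℝ, ∀ x : ℝ,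
    (-1 / (2 * κ ^ 2)) * x ^ 4 + b * x ^ 3 + (1 / κ) * x ^ 2 + d * x ≤
      (Set.Ioi (0 : ℝ)).indicator (fun _ => (1 : ℝ)) x := by
  obtain ⟨a, ha, a2⟩ : ∃ a : ℝ, 0 < a ∧ a ^ 2 = κ := ⟨√κ, Real.sqrt_pos.2 hκ, Real.sq_sqrt hκ.le⟩
  have a4 : a ^ 4 = κ ^ 2 := by rw [← a2]; ring
  obtain ⟨A, hA⟩ : ∃ A : ℝ, A = 1 / (4 * a ^ 4) := ⟨_, rfl⟩
  have A0 : 0 < A := by rw [hA]; positivity
  have A1 : A * (4 * a ^ 4) = 1 := by rw [hA]; field_simp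
  refine ⟨-a * A, 3 * a ^ 3 * A, fun x => ?_⟩
  have c1 : -1 / (2 * κ ^ 2) = -2 * A := by rw [hA, ← a4]; field_simp; norm_num
  have c2 : 1 / κ = 4 * a ^ 2 * A := by rw [hA, ← a2]; field_simp
  rw [c1, c2]
  have e1 : -2 * A * x ^ 4 + -a * A * x ^ 3 + 4 * a ^ 2 * A * x ^ 2 + 3 * a ^ 3 * A * x =
      A * (x * (x + a) ^ 2 * (3 * a - 2 * x)) := by ring
  rw [e1]
  by_cases hx : 0 < x
  · rw [Set.indicator_of_mem (show x ∈ Set.Ioi (0 : ℝ) from hx), ← A1]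
    have h2 : 0 ≤ (x - a) ^ 2 * (2 * x ^ 2 + 5 * a * x + 4 * a ^ 2) := by positivity
    have h3 : A * (4 * a ^ 4) - A * (x * (x + a) ^ 2 * (3 * a - 2 * x)) =
        A * ((x - a) ^ 2 * (2 * x ^ 2 + 5 * a * x + 4 * a ^ 2)) := by ring
    have h4 := mul_nonneg A0.le h2
    linarith
  · rw [Set.indicator_of_notMem (show x ∉ Set.Ioi (0 : ℝ) from hx)]
    have hx' : 0 ≤ -x := by linarith
    have h2 : 0 ≤ (-x) * (x + a) ^ 2 * (3 * a - 2 * x) := by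
      have : 0 ≤ 3 * a - 2 * x := by linarith
      positivity
    have h4 := mul_nonneg A0.le h2
    have h5 : A * (x * (x + a) ^ 2 * (3 * a - 2 * x)) =
      -(A * ((-x) * (x + a) ^ 2 * (3 * a - 2 * x))) := by ring
    rw [h5]
    linarith

/-- the quartic majorant of the indicator of `[t, ∞)` -/
lemma major {κ t : ℝ} (hκ : 1 < κ) (ht : 1 ≤ t) : ∃ a b c d e : ℝ, 0 ≤ a ∧
    a * κ + c + e = 1 / (1 + t ^ 2 + (t ^ 2 - 1) ^ 2 / (κ - 1)) ∧ ∀ x : ℝ,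
    (Set.Ici t).indicator (fun _ => (1 : ℝ)) x ≤
      a * x ^ 4 + b * x ^ 3 + c * x ^ 2 + d * x + e := by
  obtain ⟨r, hr⟩ : ∃ r : ℝ, r = (t ^ 2 - 1) / (κ - 1) := ⟨_, rfl⟩
  have k0 : 0 < κ - 1 := by linarith
  have t2 : 0 ≤ t ^ 2 - 1 := by nlinarith
  have r0 : 0 ≤ r := by rw [hr]; positivity
  have er : r * (κ - 1) = t ^ 2 - 1 := by rw [hr]; field_simp
  obtain ⟨K, hK⟩ : ∃ K : ℝ, K = 1 + t ^ 2 + r * (t ^ 2 - 1) := ⟨_, rfl⟩
  have K0 : 0 < K := by rw [hK]; positivity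
  have eK : 1 + t ^ 2 + (t ^ 2 - 1) ^ 2 / (κ - 1) = K := by rw [hK, hr]; field_simp
  rw [eK]
  refine ⟨r ^ 2 / K ^ 2, 2 * t * r / K ^ 2, (t ^ 2 + 2 * r * (1 - r)) / K ^ 2,
    2 * t * (1 - r) / K ^ 2, (1 - r) ^ 2 / K ^ 2, by positivity, ?_, fun x => ?_⟩
  · have h9 : r ^ 2 * κ + (t ^ 2 + 2 * r * (1 - r)) + (1 - r) ^ 2 = K := by
      rw [hK]
      have : r ^ 2 * (κ - 1) = r * (t ^ 2 - 1) := by rw [pow_two, mul_assoc, er]
      linear_combination this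
    have : r ^ 2 / K ^ 2 * κ + (t ^ 2 + 2 * r * (1 - r)) / K ^ 2 + (1 - r) ^ 2 / K ^ 2 =
        (r ^ 2 * κ + (t ^ 2 + 2 * r * (1 - r)) + (1 - r) ^ 2) / K ^ 2 := by ring
    rw [this, h9]
    field_simp
  · have e0 : r ^ 2 / K ^ 2 * x ^ 4 + 2 * t * r / K ^ 2 * x ^ 3 +
        (t ^ 2 + 2 * r * (1 - r)) / K ^ 2 * x ^ 2 + 2 * t * (1 - r) / K ^ 2 * x +
        (1 - r) ^ 2 / K ^ 2 = ((1 + t * x + r * (x ^ 2 - 1)) / K) ^ 2 := by
      field_simp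
      ring
    rw [e0]
    by_cases hx : t ≤ x
    · rw [Set.indicator_of_mem (show x ∈ Set.Ici t from hx)]
      have h2 : 1 ≤ (1 + t * x + r * (x ^ 2 - 1)) / K := by
        rw [le_div_iff₀ K0, one_mul, hK]
        have h3 : t ^ 2 ≤ t * x := by nlinarith
        have h4 : t ^ 2 - 1 ≤ x ^ 2 - 1 := by nlinarith
        have h5 := mul_le_mul_of_nonneg_left h4 r0
        linarith
      nlinarith
    · rw [Set.indicator_of_notMem (show x ∉ Set.Ici t from hx)]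
      positivity

variable {X : Type*} [TopologicalSpace X] [MeasurableSpace X] [BorelSpace X] {vol : Measure X}
variable {A : ℕ → IsoChart X vol} {lam : ℕ → ℝ} {u : ℕ → X → ℝ} {ν : ℕ → Kernel ℂ ℝ} {B : ℝ}
  {s : Finset ℕ} {φ : ℕ → ℂ → ℝ} {Φ : X → ℝ}

lemma te_poly (T : IsTe A s φ Φ) {L : ℝ} {f : X → ℝ} (hf : IsEigen A L f) (a b c d e : ℝ) :
    Integrable (fun x => Φ x * (a * f x ^ 4 + b * f x ^ 3 + c * f x ^ 2 + d * f x + e)) vol ∧
      ∫ x, Φ x * (a * f x ^ 4 + b * f x ^ 3 + c * f x ^ 2 + d * f x + e) ∂vol =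
        a * (∫ x, Φ x * f x ^ 4 ∂vol) + b * (∫ x, Φ x * f x ^ 3 ∂vol) +
          c * (∫ x, Φ x * f x ^ 2 ∂vol) + d * (∫ x, Φ x * f x ^ 1 ∂vol) + e * ∫ x, Φ x ∂vol := by
  have j4 := (te_pow T hf 4).1.const_mul a
  have j3 := (te_pow T hf 3).1.const_mul b
  have j2 := (te_pow T hf 2).1.const_mul c
  have j1 := (te_pow T hf 1).1.const_mul d
  have j0 := (te_V T hf).1.const_mul e
  have j43 : Integrable (fun x => a * (Φ x * f x ^ 4) + b * (Φ x * f x ^ 3)) vol := j4.add j3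
  have j432 : Integrable (fun x => a * (Φ x * f x ^ 4) + b * (Φ x * f x ^ 3) +
    c * (Φ x * f x ^ 2)) vol := j43.add j2
  have j4321 : Integrable (fun x => a * (Φ x * f x ^ 4) + b * (Φ x * f x ^ 3) +
    c * (Φ x * f x ^ 2) + d * (Φ x * f x ^ 1)) vol := j432.add j1
  have j : Integrable (fun x => a * (Φ x * f x ^ 4) + b * (Φ x * f x ^ 3) +
    c * (Φ x * f x ^ 2) + d * (Φ x * f x ^ 1) + e * Φ x) vol := j4321.add j0
  have e1 : ∀ x, Φ x * (a * f x ^ 4 + b * f x ^ 3 + c * f x ^ 2 + d * f x + e) =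
      a * (Φ x * f x ^ 4) + b * (Φ x * f x ^ 3) + c * (Φ x * f x ^ 2) + d * (Φ x * f x ^ 1) +
        e * Φ x := fun x => by ring
  simp_rw [e1]
  refine ⟨j, ?_⟩
  rw [integral_add j4321 j0, integral_add j432 j1, integral_add j43 j2, integral_add j4 j3,
    integral_const_mul, integral_const_mul, integral_const_mul, integral_const_mul,
    integral_const_mul]

/-- upper bounds for quartic polynomials -/
lemma Hy.up [IsFiniteMeasure vol] (H : Hy A lam u ν B) (T : IsTe A s φ Φ)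
    (V0 : 0 < ∫ x, Φ x ∂vol) {κ : ℝ}
    (hκ : ∀ δ : ℝ, 0 < δ → ∀ᶠ n in atTop, ∫ x, Φ x * u n x ^ 4 ∂vol ≤ (κ + δ) * ∫ x, Φ x ∂vol)
    {a : ℝ} (ha : 0 ≤ a) (b c d e : ℝ) {η : ℝ} (hη : 0 < η) : ∀ᶠ n in atTop,
      ∫ x, Φ x * (a * u n x ^ 4 + b * u n x ^ 3 + c * u n x ^ 2 + d * u n x + e) ∂vol ≤
        (a * κ + c + e + η) * ∫ x, Φ x ∂vol := by
  obtain ⟨V, hV⟩ : ∃ V, V = ∫ x, Φ x ∂vol := ⟨_, rfl⟩
  obtain ⟨m1, m2, m3⟩ := H.moments T
  rw [← hV] at V0 m2 hκ ⊢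
  obtain ⟨δ, hδ, hδη⟩ : ∃ δ : ℝ, 0 < δ ∧ (a + 1) * δ ≤ η :=
    ⟨η / (a + 1), by positivity, le_of_eq (by field_simp)⟩
  have h1 : Tendsto (fun n => b * (∫ x, Φ x * u n x ^ 3 ∂vol) + c * (∫ x, Φ x * u n x ^ 2 ∂vol) +
      d * (∫ x, Φ x * u n x ^ 1 ∂vol)) atTop (𝓝 (b * 0 + c * V + d * 0)) :=
    ((m3.const_mul b).add (m2.const_mul c)).add (m1.const_mul d)
  have h2 : ∀ᶠ n in atTop, b * (∫ x, Φ x * u n x ^ 3 ∂vol) + c * (∫ x, Φ x * u n x ^ 2 ∂vol) +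
      d * (∫ x, Φ x * u n x ^ 1 ∂vol) < c * V + δ * V :=
    h1.eventually_lt_const (by
      have : 0 < δ * V := mul_pos hδ V0
      linarith)
  filter_upwards [h2, hκ δ hδ] with n q1 q2
  rw [(te_poly T (H.ei n) a b c d e).2, ← hV]
  have q3 := mul_le_mul_of_nonneg_left q2 ha
  have q4 : a * ((κ + δ) * V) + (c * V + δ * V) + e * V = (a * κ + c + e + (a + 1) * δ) * V := by ring
  have q5 : (a * κ + c + e + (a + 1) * δ) * V ≤ (a * κ + c + e + η) * V :=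
    mul_le_mul_of_nonneg_right (by linarith) V0.le
  linarith

/-- the mass of a set of values is the integral of its indicator -/
lemma te_set (T : IsTe A s φ Φ) {L : ℝ} {f : X → ℝ} (hf : IsEigen A L f) {S : Set ℝ}
    (mS : MeasurableSet S) :
    Integrable (fun x => Φ x * S.indicator (fun _ => (1 : ℝ)) (f x)) vol ∧
      ∫ x, Φ x * S.indicator (fun _ => (1 : ℝ)) (f x) ∂vol = ∫ x in {x | f x ∈ S}, Φ x ∂vol := by
  have mT : MeasurableSet {x | f x ∈ S} := hf.meas mS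
  have e : (fun x => Φ x * S.indicator (fun _ => (1 : ℝ)) (f x)) = {x | f x ∈ S}.indicator Φ := by
    funext x
    by_cases hx : f x ∈ S
    · rw [Set.indicator_of_mem hx, Set.indicator_of_mem (show x ∈ {x | f x ∈ S} from hx), mul_one]
    · rw [Set.indicator_of_notMem hx, Set.indicator_of_notMem (show x ∉ {x | f x ∈ S} from hx),
        mul_zero]
  rw [e]
  exact ⟨(te_V T hf).1.indicator mT, integral_indicator mT⟩

/-- **Signs.** -/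
theorem Hy.signs [IsFiniteMeasure vol] (H : Hy A lam u ν B) (T : IsTe A s φ Φ)
    (V0 : 0 < ∫ x, Φ x ∂vol) {κ : ℝ} (k0 : 0 < κ)
    (hκ : ∀ δ : ℝ, 0 < δ → ∀ᶠ n in atTop, ∫ x, Φ x * u n x ^ 4 ∂vol ≤ (κ + δ) * ∫ x, Φ x ∂vol)
    {η : ℝ} (hη : 0 < η) : ∀ᶠ n in atTop,
      (1 / (2 * κ) - η) * ∫ x, Φ x ∂vol ≤ ∫ x in {x | u n x ∈ Set.Ioi 0}, Φ x ∂vol ∧
      (1 / (2 * κ) - η) * ∫ x, Φ x ∂vol ≤ ∫ x in {x | u n x ∈ Set.Iio 0}, Φ x ∂vol := by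
  obtain ⟨b, d, hm⟩ := minor k0
  have a0 : 0 ≤ 1 / (2 * κ ^ 2) := by positivity
  have ek : 1 / (2 * κ ^ 2) * κ + -(1 / κ) + 0 = -(1 / (2 * κ)) := by field_simp; ring
  filter_upwards [H.up T V0 hκ a0 (-b) (-(1 / κ)) (-d) 0 hη,
    H.up T V0 hκ a0 b (-(1 / κ)) d 0 hη] with n p1 p2
  rw [ek] at p1 p2
  constructor
  · have h1 := te_set T (H.ei n) (S := Set.Ioi 0) measurableSet_Ioi
    have h2 := te_poly T (H.ei n) (1 / (2 * κ ^ 2)) (-b) (-(1 / κ)) (-d) 0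
    rw [← h1.2]
    have h3 : -∫ x, Φ x * (1 / (2 * κ ^ 2) * u n x ^ 4 + -b * u n x ^ 3 + -(1 / κ) * u n x ^ 2 +
        -d * u n x + 0) ∂vol ≤ ∫ x, Φ x * (Set.Ioi (0 : ℝ)).indicator (fun _ => (1 : ℝ)) (u n x) ∂vol := by
      rw [← integral_neg]
      refine integral_mono h2.1.neg h1.1 fun x => ?_
      show -(Φ x * (1 / (2 * κ ^ 2) * u n x ^ 4 + -b * u n x ^ 3 + -(1 / κ) * u n x ^ 2 +
        -d * u n x + 0)) ≤ Φ x * (Set.Ioi (0 : ℝ)).indicator (fun _ => (1 : ℝ)) (u n x)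
      have h4 := mul_le_mul_of_nonneg_left (hm (u n x)) (T.nnΦ x)
      refine le_trans (le_of_eq ?_) h4
      ring
    have h5 : (1 / (2 * κ) - η) * ∫ x, Φ x ∂vol = -((-(1 / (2 * κ)) + η) * ∫ x, Φ x ∂vol) := by ring
    rw [h5]
    linarith
  · have h1 := te_set T (H.ei n) (S := Set.Iio 0) measurableSet_Iio
    have h2 := te_poly T (H.ei n) (1 / (2 * κ ^ 2)) b (-(1 / κ)) d 0
    rw [← h1.2]
    have h3 : -∫ x, Φ x * (1 / (2 * κ ^ 2) * u n x ^ 4 + b * u n x ^ 3 + -(1 / κ) * u n x ^ 2 +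
        d * u n x + 0) ∂vol ≤ ∫ x, Φ x * (Set.Iio (0 : ℝ)).indicator (fun _ => (1 : ℝ)) (u n x) ∂vol := by
      rw [← integral_neg]
      refine integral_mono h2.1.neg h1.1 fun x => ?_
      show -(Φ x * (1 / (2 * κ ^ 2) * u n x ^ 4 + b * u n x ^ 3 + -(1 / κ) * u n x ^ 2 +
        d * u n x + 0)) ≤ Φ x * (Set.Iio (0 : ℝ)).indicator (fun _ => (1 : ℝ)) (u n x)
      have e1 : (Set.Iio (0 : ℝ)).indicator (fun _ => (1 : ℝ)) (u n x) =
          (Set.Ioi (0 : ℝ)).indicator (fun _ => (1 : ℝ)) (-u n x) := by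
        by_cases hx : u n x < 0
        · rw [Set.indicator_of_mem (show u n x ∈ Set.Iio (0 : ℝ) from hx),
            Set.indicator_of_mem (show -u n x ∈ Set.Ioi (0 : ℝ) from neg_pos.2 hx)]
        · rw [Set.indicator_of_notMem (show u n x ∉ Set.Iio (0 : ℝ) from hx),
            Set.indicator_of_notMem (show -u n x ∉ Set.Ioi (0 : ℝ) from fun h => hx (neg_pos.1 h))]
      rw [e1]
      have h4 := mul_le_mul_of_nonneg_left (hm (-u n x)) (T.nnΦ x)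
      refine le_trans (le_of_eq ?_) h4
      ring
    have h5 : (1 / (2 * κ) - η) * ∫ x, Φ x ∂vol = -((-(1 / (2 * κ)) + η) * ∫ x, Φ x ∂vol) := by ring
    rw [h5]
    linarith

/-- **Tails.** -/
theorem Hy.tails [IsFiniteMeasure vol] (H : Hy A lam u ν B) (T : IsTe A s φ Φ)
    (V0 : 0 < ∫ x, Φ x ∂vol) {κ : ℝ} (k1 : 1 < κ)
    (hκ : ∀ δ : ℝ, 0 < δ → ∀ᶠ n in atTop, ∫ x, Φ x * u n x ^ 4 ∂vol ≤ (κ + δ) * ∫ x, Φ x ∂vol)
    {t : ℝ} (ht : 1 ≤ t) {η : ℝ} (hη : 0 < η) : ∀ᶠ n in atTop,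
      ∫ x in {x | u n x ∈ Set.Ici t}, Φ x ∂vol ≤
        (1 / (1 + t ^ 2 + (t ^ 2 - 1) ^ 2 / (κ - 1)) + η) * ∫ x, Φ x ∂vol ∧
      ∫ x in {x | u n x ∈ Set.Iic (-t)}, Φ x ∂vol ≤
        (1 / (1 + t ^ 2 + (t ^ 2 - 1) ^ 2 / (κ - 1)) + η) * ∫ x, Φ x ∂vol := by
  obtain ⟨a, b, c, d, e, a0, ek, hm⟩ := major k1 ht
  filter_upwards [H.up T V0 hκ a0 b c d e hη, H.up T V0 hκ a0 (-b) c (-d) e hη] with n p1 p2
  rw [ek] at p1 p2
  constructor
  · have h1 := te_set T (H.ei n) (S := Set.Ici t) measurableSet_Ici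
    rw [← h1.2]
    refine le_trans (integral_mono h1.1 (te_poly T (H.ei n) a b c d e).1 fun x => ?_) p1
    exact mul_le_mul_of_nonneg_left (hm (u n x)) (T.nnΦ x)
  · have h1 := te_set T (H.ei n) (S := Set.Iic (-t)) measurableSet_Iic
    rw [← h1.2]
    refine le_trans (integral_mono h1.1 (te_poly T (H.ei n) a (-b) c (-d) e).1 fun x => ?_) p2
    show Φ x * (Set.Iic (-t)).indicator (fun _ => (1 : ℝ)) (u n x) ≤
      Φ x * (a * u n x ^ 4 + -b * u n x ^ 3 + c * u n x ^ 2 + -d * u n x + e)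
    have e1 : (Set.Iic (-t)).indicator (fun _ => (1 : ℝ)) (u n x) =
        (Set.Ici t).indicator (fun _ => (1 : ℝ)) (-u n x) := by
      by_cases hx : u n x ≤ -t
      · rw [Set.indicator_of_mem (show u n x ∈ Set.Iic (-t) from hx),
          Set.indicator_of_mem (show -u n x ∈ Set.Ici t from le_neg_of_le_neg hx)]
      · rw [Set.indicator_of_notMem (show u n x ∉ Set.Iic (-t) from hx),
          Set.indicator_of_notMem (show -u n x ∉ Set.Ici t from fun h => hx (le_neg_of_le_neg h))]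
    rw [e1]
    have h4 := mul_le_mul_of_nonneg_left (hm (-u n x)) (T.nnΦ x)
    refine h4.trans (le_of_eq ?_)
    ring

end

end Run7.h694.FM
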